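import Pool.Agent.Q264.BetwGraph

/-!
The betweenness values above 1 of betweenness-uniform graphs are exactly the rationals above 1.
-/

set_option autoImplicit false

namespace Pool.Agent.Results.MP_8f6c4c_co.AllRationals

open Pool.Agent.Q264.Betw

/-- the numerical identities behind the choice of the parameters -/
lemma attained (α β : ℕ) (hβ : 1 ≤ β) (hαβ : β < α) :
    ∃ (V : Type) (_ : Fintype V) (G : SimpleGraph V), G.Connected ∧
      ∀ v, betw G v = (α : ℚ) / (β : ℚ) := by
  obtain ⟨d, rfl⟩ := Nat.exists_eq_add_of_lt hαβ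
  set α := β + d + 1 with hα
  set s : ℕ := 2 * α + 1 with hs
  set a : ℕ := β * s with ha
  have hs5 : 5 ≤ s := by omega
  have has : s ≤ a := by rw [ha]; exact Nat.le_mul_of_pos_left _ hβ
  have ha5 : 5 ≤ a := le_trans hs5 has
  have hk0 : 2 * α * s < a ^ 2 := by
    calc 2 * α * s < s * s := Nat.mul_lt_mul_of_pos_right (by omega) (by omega)
      _ ≤ a * a := Nat.mul_le_mul has has
      _ = a ^ 2 := (sq a).symm
  obtain ⟨k, hk⟩ : ∃ k, a ^ 2 = 2 * α * s + k := ⟨a ^ 2 - 2 * α * s, by omega⟩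
  obtain ⟨b, hb⟩ : ∃ b, a ^ 2 = b + 1 := ⟨a ^ 2 - 1, by
    have : 0 < a ^ 2 := by positivity
    omega⟩
  set c : ℕ := (d + 1) * s * a + 1 with hc
  -- rational versions
  have qα : (α : ℚ) = β + d + 1 := by rw [hα]; push_cast; ring
  have qa : (a : ℚ) = β * s := by rw [ha]; push_cast; ring
  have qk : (a : ℚ) ^ 2 = 2 * α * s + k := by exact_mod_cast hk
  have qb : (a : ℚ) ^ 2 = b + 1 := by exact_mod_cast hb
  have qc : (c : ℚ) = (d + 1) * s * a + 1 := by rw [hc]; push_cast; ring
  have qa5 : (5 : ℚ) ≤ a := by exact_mod_cast ha5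
  have qβ : (1 : ℚ) ≤ β := by exact_mod_cast hβ
  have hN : ((2 * c * a + k * (b + 1) : ℕ) : ℚ) = (a : ℚ) ^ 4 - 2 * a ^ 3 + 2 * a := by
    push_cast
    rw [← qb]
    have e1 : (k : ℚ) = a ^ 2 - 2 * α * s := by linarith
    rw [e1, qc, qα]
    linear_combination (2 * (a : ℚ) ^ 2) * qa
  have h1 : 2 * a < 2 * c * a + k * (b + 1) := by
    have : (2 * (a : ℚ)) < ((2 * c * a + k * (b + 1) : ℕ) : ℚ) := by
      rw [hN]
      have : 0 < (a : ℚ) ^ 3 * (a - 2) := by
        apply mul_pos (by positivity)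
        linarith
      nlinarith
    exact_mod_cast this
  have h2 : b + 1 < 2 * c * a + k * (b + 1) := by
    have : ((b : ℚ) + 1) < ((2 * c * a + k * (b + 1) : ℕ) : ℚ) := by
      rw [hN, ← qb]
      have : 0 < (a : ℚ) * (a - 2) * (a ^ 2 - 1) := by
        apply mul_pos (mul_pos (by positivity) (by linarith))
        nlinarith
      nlinarith
    exact_mod_cast this
  have na : (a : ℚ) ≠ 0 := by positivity
  have na2 : (a : ℚ) - 2 ≠ 0 := by
    have : (0 : ℚ) < a - 2 := by linarith
    exact this.ne'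
  have na1 : (a : ℚ) ^ 2 - 1 ≠ 0 := by
    have : (0 : ℚ) < (a : ℚ) ^ 2 - 1 := by nlinarith
    exact this.ne'
  have nβ : (β : ℚ) ≠ 0 := by positivity
  have hval := betw_val (c := c) (a := a) (k := k) (b := b) h1 h2
    (1 / ((a : ℚ) * (a - 2))) (1 / ((a : ℚ) ^ 3 * (a - 2)))
    (1 / ((a : ℚ) * (a - 2) * (a ^ 2 - 1)))
    (by
      rw [hN]
      field_simp
      ring)
    (by
      rw [hN]
      have e1 : (b : ℚ) = a ^ 2 - 1 := by linarith
      rw [e1]
      field_simp
      ring)
    (by field_simp)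
    (by
      have e1 : (b : ℚ) = a ^ 2 - 1 := by linarith
      rw [e1]
      field_simp)
  refine ⟨Vt c a k b, inferInstance, (Cg c a k b)ᶜ, ?_, ?_⟩
  · have hg := good (c := c) (a := a) (k := k) (b := b) h1 h2
    have : Nonempty (Vt c a k b) :=
      ⟨Sum.inl (⟨0, by omega⟩, (true, ⟨0, by omega⟩))⟩
    exact ⟨fun u v => reach hg u v⟩
  · intro v
    have hv := hval v
    rw [hv]
    have e1 : (k : ℚ) = a ^ 2 - 2 * α * s := by linarith
    have e2 : (c : ℚ) + k - 1 = α * s * (a - 2) := by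
      rw [e1, qc]
      have e3 : (d : ℚ) + 1 = α - β := by rw [qα]; ring
      rw [e3]
      linear_combination (a : ℚ) * qa
    rw [e2]
    have ns : (s : ℚ) ≠ 0 := by
      have : 0 < s := by omega
      exact_mod_cast this.ne'
    rw [qa] at na2 ⊢
    field_simp

/-- **Result.** The set of the real numbers above 1 that are the constant betweenness of a
finite connected graph is the set of the rational numbers above 1. -/
theorem result :
    {x : ℝ | 1 < x ∧ ∃ (V : Type) (_ : Fintype V) (G : SimpleGraph V), G.Connected ∧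
      ∀ v : V, ((betw G v : ℚ) : ℝ) = x} =
    {x : ℝ | 1 < x ∧ ∃ q : ℚ, (q : ℝ) = x} := by
  ext x
  simp only [Set.mem_ofPred_eq]
  constructor
  · rintro ⟨hx, V, _, G, hG, h⟩
    obtain ⟨v⟩ := hG.nonempty
    exact ⟨hx, _, h v⟩
  · rintro ⟨hx, q, rfl⟩
    refine ⟨hx, ?_⟩
    have hq : 1 < q := by exact_mod_cast hx
    have hnum : 0 < q.num := Rat.num_pos.mpr (by linarith)
    have e1 : ((q.num.toNat : ℕ) : ℚ) = (q.num : ℚ) := by
      have : ((q.num.toNat : ℕ) : ℤ) = q.num := Int.toNat_of_nonneg hnum.le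
      exact_mod_cast this
    have e2 : (q.num.toNat : ℚ) / (q.den : ℚ) = q := by
      rw [e1]
      exact Rat.num_div_den q
    have hden : 0 < (q.den : ℚ) := by exact_mod_cast q.den_pos
    have hlt : q.den < q.num.toNat := by
      have h3 : (q.den : ℚ) < (q.num.toNat : ℚ) := by
        have h4 : 1 < (q.num.toNat : ℚ) / (q.den : ℚ) := by rw [e2]; exact hq
        rwa [one_lt_div hden] at h4
      exact_mod_cast h3
    obtain ⟨V, i, G, hG, h⟩ := attained q.num.toNat q.den q.den_pos hlt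
    refine ⟨V, i, G, hG, fun v => ?_⟩
    rw [h v, e2]

end Pool.Agent.Results.MP_8f6c4c_co.AllRationals
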